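import Pool.Agent.H71.RN.Final

/-!
# MP_f1856f_ag: every continuous rational map X -> S^p, X compact nonsingular of dimension at most 2 p,
is a limit of nice continuous rational maps

`X` is a compact nonsingular real algebraic subset of `R^N` of pure dimension `n`, `S^p` is the unit
sphere of `R^(p+1)`, `C(X, S^p)` carries the compact-open topology (the topology of Mathlib on
`ContinuousMap`).
-/

set_option autoImplicit false

namespace Pool.Agent.Results.MP_f1856f_ag.DimAtMostTwoP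

open MvPolynomial H71.RN

/-- `U` is a Zariski open subset of `X` -/
def ZariskiOpen {N : ℕ} (X U : Set (Pt N)) : Prop :=
  ∃ S : Set (Pol N), U = {x | x ∈ X ∧ ∃ s ∈ S, eval x s ≠ 0}

/-- `U` is Zariski dense in `X`: polynomials vanishing on `U` vanish on `X` -/
def ZariskiDense {N : ℕ} (X U : Set (Pt N)) : Prop :=
  ∀ s : Pol N, (∀ x ∈ U, eval x s = 0) → ∀ x ∈ X, eval x s = 0

/-- the restriction of `f : X → S^p` to `U` is a regular map: near every point of `U` the components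
of `f` are quotients of polynomials -/
def RegularOn {N p : ℕ} {X : Set (Pt N)} (f : C(X, Sph p)) (U : Set (Pt N)) : Prop :=
  ∀ x ∈ U, ∃ (W : Set (Pt N)) (P Q : Fin (p + 1) → Pol N), ZariskiOpen X W ∧ x ∈ W ∧ W ⊆ U ∧
    ∀ (z : X), (z : Pt N) ∈ W → ∀ j, eval (z : Pt N) (Q j) ≠ 0 ∧
      (f z : Pt (p + 1)) j = eval (z : Pt N) (P j) / eval (z : Pt N) (Q j)

/-- `U` is a Zariski open dense subset of `X` on which `f` is regular -/
def GoodOpen {N p : ℕ} {X : Set (Pt N)} (f : C(X, Sph p)) (U : Set (Pt N)) : Prop :=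
  ZariskiOpen X U ∧ ZariskiDense X U ∧ RegularOn f U

/-- `f` is continuous rational -/
def IsContRational {N p : ℕ} {X : Set (Pt N)} (f : C(X, Sph p)) : Prop :=
  ∃ U : Set (Pt N), GoodOpen f U

/-- `P(f)`: the complement in `X` of the union `X(f)` of the Zariski open dense sets on which `f` is
regular -/
def PSet {N p : ℕ} {X : Set (Pt N)} (f : C(X, Sph p)) : Set X :=
  {x | ∀ U : Set (Pt N), GoodOpen f U → (x : Pt N) ∉ U}

/-- `f` is nice: `f(P(f))` is not the whole sphere -/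
def IsNiceMap {N p : ℕ} {X : Set (Pt N)} (f : C(X, Sph p)) : Prop :=
  f '' PSet f ≠ Set.univ

/-- the extension of `f` by zero -/
noncomputable def ext {N p : ℕ} {X : Set (Pt N)} (f : C(X, Sph p)) : Pt N → Pt (p + 1) :=
  open Classical in fun x => if h : x ∈ X then (f ⟨x, h⟩ : Pt (p + 1)) else 0

theorem ext_apply {N p : ℕ} {X : Set (Pt N)} (f : C(X, Sph p)) (x : X) :
    ext f (x : Pt N) = (f x : Pt (p + 1)) := by
  unfold ext
  rw [dif_pos x.2]

theorem ext_continuousOn {N p : ℕ} {X : Set (Pt N)} (f : C(X, Sph p)) :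
    ContinuousOn (ext f) X := by
  rw [continuousOn_iff_continuous_domRestrict]
  have h : X.domRestrict (ext f) = fun x : X => (f x : Pt (p + 1)) := by
    funext x
    exact ext_apply f x
  rw [h]
  exact continuous_subtype_val.comp f.continuous

theorem ext_regularAt {N p : ℕ} {X : Set (Pt N)} (f : C(X, Sph p)) {U : Set (Pt N)}
    (hU : RegularOn f U) (x : Pt N) (hx : x ∈ U) : RegularAt X (ext f) x := by
  classical
  obtain ⟨W, P, Q, ⟨S, hS⟩, hxW, hWU, hPQ⟩ := hU x hx
  have hxW' := hxW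
  rw [hS] at hxW'
  obtain ⟨hxX, s, hsS, hs⟩ := hxW'
  refine ⟨s * ∏ j, Q j, fun j => s * (P j * ∏ i ∈ Finset.univ.erase j, Q i), ?_, ?_⟩
  · rw [map_mul, map_prod]
    exact mul_ne_zero hs (Finset.prod_ne_zero_iff.2 fun j _ => (hPQ ⟨x, hxX⟩ hxW j).1)
  · intro z hz hq j
    rw [map_mul, map_prod] at hq
    have h1 := left_ne_zero_of_mul hq
    have hzW : z ∈ W := by
      rw [hS]
      exact ⟨hz, s, hsS, h1⟩
    have h2 := hPQ ⟨z, hz⟩ hzW
    have h3 := ext_apply f ⟨z, hz⟩
    simp only at h3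
    rw [h3, (h2 j).2, map_mul, map_mul, map_mul, map_prod, map_prod,
      ← Finset.mul_prod_erase Finset.univ (fun i => eval z (Q i)) (Finset.mem_univ j)]
    have h4 : ∏ i ∈ Finset.univ.erase j, eval z (Q i) ≠ 0 :=
      Finset.prod_ne_zero_iff.2 fun i _ => (h2 i).1
    have h5 := (h2 j).1
    simp only at h5 ⊢
    field_simp

theorem ext_contRational {N p : ℕ} {X : Set (Pt N)} (f : C(X, Sph p))
    (hf : IsContRational f) : ContinuousRational X (ext f) := by
  obtain ⟨U, hU1, hU2, hU3⟩ := hf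
  refine ⟨ext_continuousOn f, fun s hs => hU2 s fun x hx => hs x ?_ (ext_regularAt f hU3 x hx)⟩
  obtain ⟨S, rfl⟩ := hU1
  exact hx.1

/-- the restriction to `X` of a map with values in the sphere -/
def res {N p : ℕ} {X : Set (Pt N)} (g : Pt N → Pt (p + 1)) (hg : ContinuousOn g X)
    (hs : ∀ x ∈ X, g x ∈ Sph p) : C(X, Sph p) :=
  ⟨fun x => ⟨g x, hs x x.2⟩, by
    refine Continuous.subtype_mk ?_ _
    exact continuousOn_iff_continuous_domRestrict.1 hg⟩

theorem res_good {N p : ℕ} {X : Set (Pt N)} (g : Pt N → Pt (p + 1)) (hg : ContinuousRational X g)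
    (hs : ∀ x ∈ X, g x ∈ Sph p) :
    GoodOpen (res g hg.1 hs) {x | x ∈ X ∧ RegularAt X g x} := by
  obtain ⟨G, P, -, hGP, hGr⟩ := exists_den X g
  have hU : {x | x ∈ X ∧ RegularAt X g x} = {x | x ∈ X ∧ ∃ s ∈ ({G} : Set (Pol N)), eval x s ≠ 0} := by
    ext x
    constructor
    · rintro ⟨h1, h2⟩
      exact ⟨h1, G, rfl, fun h => (hGr x h1).1 h h2⟩
    · rintro ⟨h1, s, rfl, h2⟩
      refine ⟨h1, ?_⟩
      by_contra h3
      exact h2 ((hGr x h1).2 h3)
  refine ⟨⟨{G}, hU⟩, fun s h x hx => hg.2 s (fun z hz hr => h z ⟨hz, hr⟩) x hx, ?_⟩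
  intro x hx
  refine ⟨{x | x ∈ X ∧ RegularAt X g x}, P, fun _ => G, ⟨{G}, hU⟩, hx, subset_rfl, ?_⟩
  intro z hz j
  have h1 : eval (z : Pt N) G ≠ 0 := fun h => (hGr z z.2).1 h hz.2
  refine ⟨h1, ?_⟩
  rw [← hGP z z.2 j, mul_div_cancel_left₀ _ h1]
  rfl

/-- **Theorem.** Let `X` be a compact nonsingular real algebraic set of pure dimension `n ≤ 2 p`,
`p ≥ 1`. Every continuous rational map `f : X → S^p` lies in the closure of the set of the nice
continuous rational maps in `C(X, S^p)` (compact-open topology). -/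
theorem result (N n p : ℕ) (hp : 1 ≤ p) (hn : n ≤ 2 * p) (X : Set (Fin N → ℝ))
    (hXc : IsCompact X) (hXa : IsAlgebraic X) (hXn : IsNonsingular n X)
    (f : C(X, Sph p)) (hf : IsContRational f) :
    f ∈ closure {g : C(X, Sph p) | IsContRational g ∧ IsNiceMap g} := by
  have hcs : CompactSpace X := isCompact_iff_compactSpace.1 hXc
  rw [Metric.mem_closure_iff]
  intro ε hε
  obtain ⟨g, hg, hgs, ⟨y, hy, hgy⟩, hgf⟩ := main hp hn hXc hXa hXn (ext f)
    (ext_contRational f hf) (fun x hx => by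
      have h := ext_apply f ⟨x, hx⟩
      simp only at h
      rw [h]
      exact (f ⟨x, hx⟩).2) ε hε
  refine ⟨res g hg.1 hgs, ⟨⟨_, res_good g hg hgs⟩, ?_⟩, ?_⟩
  · intro h
    have h1 : (⟨y, hy⟩ : Sph p) ∈ res g hg.1 hgs '' PSet (res g hg.1 hgs) := by
      rw [h]
      exact Set.mem_univ _
    obtain ⟨x, hx, hxy⟩ := h1
    refine hgy x x.2 (fun hr => hx _ (res_good g hg hgs) ⟨x.2, hr⟩) ?_
    have h2 := congrArg (Subtype.val) hxy
    exact h2
  · rw [ContinuousMap.dist_lt_iff hε]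
    intro x
    have h := hgf x x.2
    rw [ext_apply f x] at h
    rw [Subtype.dist_eq, dist_comm, dist_eq_norm]
    exact h

end Pool.Agent.Results.MP_f1856f_ag.DimAtMostTwoP
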